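import Pool.Agent.Helper24.AB.Defs

/-! # Project AB, module AN: analysis on the strip (PAPER.md, Section 9).

Every `def S_XXX : Prop` is a packet: prove it (in your own file, `theorem xxx : S_XXX`, or
`theorem xxx (h1 : S_YYY) ... : S_XXX` with the packets named in the docstring as hypotheses).
-/

open MeasureTheory Set Filter Topology
open scoped ContDiff

noncomputable section

namespace Pool.Agent.Helper24.AB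

/-- `D φ = -∂φ + (∂Φ) φ`, `∂ = (∂_σ - i ∂_t)/2`. -/
def Dop (Φ : ℂ → ℝ) (φ : ℂ → ℂ) (w : ℂ) : ℂ :=
  -dz φ w + dz (fun w => (Φ w : ℂ)) w * φ w

/-- Test functions of the strip. -/
def IsTest (a : ℝ) (φ : ℂ → ℂ) : Prop :=
  ContDiff ℝ ∞ φ ∧ HasCompactSupport φ ∧ tsupport φ ⊆ strip a

/-- `|∇_A φ|²`, `∇_A = (∂_σ + iΦ_t, ∂_t - iΦ_σ)`. -/
def gA (Φ : ℂ → ℝ) (φ : ℂ → ℂ) (w : ℂ) : ℝ :=
  ‖dS φ w + Complex.I * (dT Φ w : ℝ) * φ w‖ ^ 2 + ‖dT φ w - Complex.I * (dS Φ w : ℝ) * φ w‖ ^ 2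

/-- Lebesgue measure on the strip. -/
abbrev muS (a : ℝ) : Measure ℂ := volume.restrict (strip a)

/-- (ID) The Bochner identity (9.1).
Proof. Write `X = ∂_σ + iΦ_t`, `Y = ∂_t - iΦ_σ`; then `-Dφ = (Xφ - iYφ)/2`, so pointwise
`4|Dφ|² = |Xφ|² + |Yφ|² + 2Re(i Xφ conj(Yφ))`, and
`i Xφ conj(Yφ) = i(φ_σ + iΦ_tφ)(conj φ_t + iΦ_σ conj φ) = iφ_σ conj φ_t - Φ_σφ_σ conj φ - Φ_tφ conj φ_t - iΦ_tΦ_σ|φ|²`.
Taking twice the real part gives `i(φ_σ conj φ_t - φ_t conj φ_σ) - Φ_σ∂_σ|φ|² - Φ_t∂_t|φ|²`, therefore pointwise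
`4|Dφ|² = gA + ΔΦ|φ|² + ∂_σ(iφ conj φ_t - Φ_σ|φ|²) - ∂_t(iφ conj φ_σ + Φ_t|φ|²)`.
All these functions are smooth with compact support in the strip (outside `tsupport φ` everything vanishes), so the
integral over the strip of the two derivatives is `0` (Fubini, `ℂ ≃ ℝ × ℝ`, or `integral_fderiv_eq_zero`-type lemmas). -/
def S_ID : Prop := ∀ (a : ℝ) (Φ : ℂ → ℝ), ContDiffOn ℝ ∞ Φ (strip a) → ∀ φ, IsTest a φ →
  ∫ w in strip a, ‖Dop Φ φ w‖ ^ 2 =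
    (1 / 4) * ∫ w in strip a, (gA Φ φ w + lapC Φ w * ‖φ w‖ ^ 2)

/-- (BAS) The basic estimate. Proof. For fixed `t` let `f(σ) = φ(σ+it)`, `Xf = f' + iΦ_t f`. `d|f|²/dσ = 2Re(conj f · Xf)`
(the term `iΦ_t|f|²` is imaginary), `f` has compact support in `(-a,a)`, so
`2|f(σ)|² = ∫_{-a}^σ - ∫_σ^a d|f|² ≤ 2∫|f||Xf|` and `∫|f|² ≤ 2a∫|f||Xf| ≤ 2a‖f‖‖Xf‖`, i.e. `∫|f|² ≤ 4a²∫|Xf|²`.
Integrate over `t` (Fubini, `ℂ ≃ ℝ×ℝ` by `Complex.measurableEquivRealProd`, volume preserving) to get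
`∫‖φ‖² ≤ 4a²∫gA`, and use (ID) with `lapC Φ ≥ 0`. -/
def S_BAS : Prop := ∀ (a : ℝ) (Φ : ℂ → ℝ), 0 < a → ContDiffOn ℝ ∞ Φ (strip a) →
  (∀ w ∈ strip a, 0 ≤ lapC Φ w) → ∀ φ, IsTest a φ →
    (∫ w in strip a, ‖φ w‖ ^ 2) ≤ 4 * a ^ 2 * (∫ w in strip a, gA Φ φ w) ∧
    (∫ w in strip a, ‖φ w‖ ^ 2) ≤ 16 * a ^ 2 * ∫ w in strip a, ‖Dop Φ φ w‖ ^ 2

/-- `(z,y)` is in the closure (in `L² × L²`) of the graph of `D` on test functions. -/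
structure InDom (a : ℝ) (Φ : ℂ → ℝ) (z y : ℂ → ℂ) : Prop where
  memz : MemLp z 2 (muS a)
  memy : MemLp y 2 (muS a)
  approx : ∃ φ : ℕ → ℂ → ℂ, (∀ n, IsTest a (φ n)) ∧
    Tendsto (fun n => eLpNorm (fun w => φ n w - z w) 2 (muS a)) atTop (𝓝 0) ∧
    Tendsto (fun n => eLpNorm (fun w => Dop Φ (φ n) w - y w) 2 (muS a)) atTop (𝓝 0)

/-- (DOM) Elementary properties of the domain.
(1) linear combinations; (2) multiplication by a smooth bounded function with bounded derivative: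
`D(mφ) = m Dφ - (∂m) φ`; (3) closedness; (4) `‖z‖² ≤ 16a²‖y‖²` (from BAS by approximation); (5) a test function is in the
domain.  All follow directly from the definition. -/
def S_DOM : Prop := ∀ (a : ℝ) (Φ : ℂ → ℝ), 0 < a → ContDiffOn ℝ ∞ Φ (strip a) →
  (∀ z y z' y' (c c' : ℂ), InDom a Φ z y → InDom a Φ z' y' →
    InDom a Φ (fun w => c * z w + c' * z' w) (fun w => c * y w + c' * y' w)) ∧
  (∀ (m : ℂ → ℂ) (B : ℝ) z y, ContDiff ℝ ∞ m → (∀ w, ‖m w‖ ≤ B ∧ ‖dz m w‖ ≤ B) → InDom a Φ z y →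
    InDom a Φ (fun w => m w * z w) (fun w => m w * y w - dz m w * z w)) ∧
  (∀ (zn yn : ℕ → ℂ → ℂ) z y, (∀ n, InDom a Φ (zn n) (yn n)) → MemLp z 2 (muS a) →
    MemLp y 2 (muS a) → Tendsto (fun n => eLpNorm (fun w => zn n w - z w) 2 (muS a)) atTop (𝓝 0) →
    Tendsto (fun n => eLpNorm (fun w => yn n w - y w) 2 (muS a)) atTop (𝓝 0) → InDom a Φ z y) ∧
  (∀ φ, IsTest a φ → InDom a Φ φ (Dop Φ φ))

/-- (DOMB) `‖z‖_{L²} ≤ 4a ‖y‖_{L²}` on the domain. Uses (BAS). -/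
def S_DOMB : Prop := ∀ (a : ℝ) (Φ : ℂ → ℝ), 0 < a → ContDiffOn ℝ ∞ Φ (strip a) →
  (∀ w ∈ strip a, 0 ≤ lapC Φ w) → ∀ z y, InDom a Φ z y →
    (∫ w in strip a, ‖z w‖ ^ 2) ≤ 16 * a ^ 2 * ∫ w in strip a, ‖y w‖ ^ 2

/-- The weak equation `⟨y, Dφ⟩ = ⟨X_a, φ⟩ + ⟨X_b, Dφ⟩`. -/
def Eqn (a : ℝ) (Φ : ℂ → ℝ) (y Xa Xb : ℂ → ℂ) : Prop :=
  ∀ φ, IsTest a φ → ∫ w in strip a, y w * (starRingEnd ℂ) (Dop Φ φ w) =
    (∫ w in strip a, Xa w * (starRingEnd ℂ) (φ w)) +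
      ∫ w in strip a, Xb w * (starRingEnd ℂ) (Dop Φ φ w)

/-- (EQD) By density the weak equation holds against every `(z',y')` in the domain. -/
def S_EQD : Prop := ∀ (a : ℝ) (Φ : ℂ → ℝ) (y Xa Xb : ℂ → ℂ), 0 < a → ContDiffOn ℝ ∞ Φ (strip a) →
  MemLp y 2 (muS a) → MemLp Xa 2 (muS a) → MemLp Xb 2 (muS a) → Eqn a Φ y Xa Xb →
    ∀ z' y', InDom a Φ z' y' → ∫ w in strip a, y w * (starRingEnd ℂ) (y' w) =
    (∫ w in strip a, Xa w * (starRingEnd ℂ) (z' w)) +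
      ∫ w in strip a, Xb w * (starRingEnd ℂ) (y' w)

/-- (SOL) Existence of the solution (Riesz / Lax-Milgram).
Proof. Let `R ⊂ L²` be the closure of `{Dφ}`; by (DOMB) there is a bounded linear map `T : R → L²` with `T(Dφ) = φ`, and
`(Ty, y)` is in the domain for every `y ∈ R`. The functional `y' ↦ ⟨X_a, Ty'⟩ + ⟨X_b, y'⟩` is bounded (conjugate linear) on the Hilbert
space `R`, so it is `⟨y, y'⟩` for a `y ∈ R`; `z := Ty`.  (Alternatively work in the closed subspace of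
`L² × L²` which is the closure of the graph.) -/
def S_SOL : Prop := ∀ (a : ℝ) (Φ : ℂ → ℝ) (Xa Xb : ℂ → ℂ), 0 < a → ContDiffOn ℝ ∞ Φ (strip a) →
  (∀ w ∈ strip a, 0 ≤ lapC Φ w) → MemLp Xa 2 (muS a) → MemLp Xb 2 (muS a) →
    ∃ z y, InDom a Φ z y ∧ Eqn a Φ y Xa Xb

/-- Hypothesis (H) of (9.2) on `ψ(t)`. -/
def HypH (a : ℝ) (Φ : ℂ → ℝ) (ψ : ℝ → ℝ) : Prop :=
  ∀ φ, IsTest a φ → (∫ w in strip a, (deriv ψ w.im) ^ 2 * ‖φ w‖ ^ 2) ≤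
    (1 / 16) * ∫ w in strip a, ‖Dop Φ φ w‖ ^ 2

/-- (WB) weighted estimate for bounded `ψ`.
Proof (all norms in `L²(strip)`). By approximation (H) holds for `(z',y')` in the domain: `‖ψ' z'‖ ≤ ¼‖y'‖`. With `m = e^{2ψ(Im w)}`
(smooth, bounded, bounded derivative; `dz m = -i ψ' e^{2ψ}`, since `∂ψ = -(i/2)ψ'`) `(e^{2ψ}z, e^{2ψ}y - (∂m) z)` is in the domain, and
(EQD) gives `⟨y, e^{2ψ}y - ∂m z⟩ = ⟨X_a, e^{2ψ}z⟩ + ⟨X_b, e^{2ψ}y - ∂m z⟩`, where `|∂m| = |ψ'|e^{2ψ}`. Put `P = ‖e^ψ y‖`, `E = ‖ψ' e^ψ z‖`,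
`a0 = ‖e^ψX_a‖`, `b0 = ‖e^ψX_b‖`: `P² ≤ P E + a0‖e^ψ z‖ + b0(P + E)`.  For `(e^ψ z, e^ψ y - ∂(e^ψ) z)`, `|∂e^ψ| = |ψ'|e^ψ/2`, (H) gives
`E ≤ ¼(P + E/2)`, so `E ≤ (2/7)P`, and (DOMB) gives `‖e^ψ z‖ ≤ 4a(P + E/2) ≤ 5aP`. Hence `P² ≤ (2/7)P² + 5a·a0·P + (9/7) b0 P`,
`P ≤ 7a·a0 + 2·b0` (`P<∞`), `‖e^ψ z‖ ≤ 5a P`. -/
def S_WB : Prop := ∀ (a : ℝ) (Φ : ℂ → ℝ) (ψ : ℝ → ℝ) (z y Xa Xb : ℂ → ℂ), 0 < a →
  ContDiffOn ℝ ∞ Φ (strip a) → (∀ w ∈ strip a, 0 ≤ lapC Φ w) → ContDiff ℝ ∞ ψ →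
  (∃ B, ∀ t, |ψ t| ≤ B ∧ |deriv ψ t| ≤ B) → HypH a Φ ψ →
  MemLp Xa 2 (muS a) → MemLp Xb 2 (muS a) → InDom a Φ z y → Eqn a Φ y Xa Xb →
    eLpNorm (fun w => Real.exp (ψ w.im) • y w) 2 (muS a) ≤
      ENNReal.ofReal (7 * a) * eLpNorm (fun w => Real.exp (ψ w.im) • Xa w) 2 (muS a) +
      2 * eLpNorm (fun w => Real.exp (ψ w.im) • Xb w) 2 (muS a) ∧
    eLpNorm (fun w => Real.exp (ψ w.im) • z w) 2 (muS a) ≤
      ENNReal.ofReal (5 * a) * eLpNorm (fun w => Real.exp (ψ w.im) • y w) 2 (muS a)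

/-- (WU) the same for unbounded `ψ ≥ 0` with bounded derivative (the right-hand side may be `∞`).
Proof. Let `θ : ℝ → ℝ` be smooth, `θ(x) = x` for `x ≤ 1`, `0 ≤ θ' ≤ 1`, bounded, and `θ(x) ≤ x` for `x ≥ 0`; `ψ_n = nθ(ψ/n)`
satisfies `0 ≤ ψ_n ≤ ψ`, `|ψ_n'| ≤ |ψ'|` (so (H) holds), and `ψ_n(t) = ψ(t)` for `n ≥ ψ(t)`. Apply (WB) to `ψ_n` and Fatou's lemma
(`lintegral_liminf_le`, or monotone: pointwise convergence). Statement with a constant `C` depending on `a` only. -/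
def S_WU : Prop := ∀ a : ℝ, 0 < a → ∃ C : NNReal, ∀ (Φ : ℂ → ℝ) (ψ : ℝ → ℝ) (z y Xa Xb : ℂ → ℂ),
  ContDiffOn ℝ ∞ Φ (strip a) → (∀ w ∈ strip a, 0 ≤ lapC Φ w) → ContDiff ℝ ∞ ψ → (∀ t, 0 ≤ ψ t) →
  (∃ B, ∀ t, |deriv ψ t| ≤ B) → HypH a Φ ψ →
  MemLp Xa 2 (muS a) → MemLp Xb 2 (muS a) → InDom a Φ z y → Eqn a Φ y Xa Xb →
    eLpNorm (fun w => Real.exp (ψ w.im) • y w) 2 (muS a) +
      eLpNorm (fun w => Real.exp (ψ w.im) • z w) 2 (muS a) ≤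
      C * (eLpNorm (fun w => Real.exp (ψ w.im) • Xa w) 2 (muS a) +
      eLpNorm (fun w => Real.exp (ψ w.im) • Xb w) 2 (muS a))

/-! ## Families, uniform rapid decay -/

/-- Uniform rapid decay (in weighted `L²(strip)`) of a family of functions. -/
def URap (a : ℝ) {ι : Type} (W : ι → ℝ → ℝ) (X : ι → ℂ → ℂ) : Prop :=
  (∀ j, AEStronglyMeasurable (X j) (muS a)) ∧
  ∀ N : ℕ, ∃ C : NNReal, ∀ j, eLpNorm (fun w => ((W j w.im) ^ N : ℝ) • X j w) 2 (muS a) ≤ C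

/-- Polynomial growth (with respect to `W`) of a family of functions, pointwise. -/
def UPol (a : ℝ) {ι : Type} (W : ι → ℝ → ℝ) (c : ι → ℂ → ℂ) : Prop :=
  (∀ j, ContinuousOn (c j) (strip a)) ∧
  ∃ (C : ℝ) (N : ℕ), ∀ j, ∀ w ∈ strip a, ‖c j w‖ ≤ C * W j w.im ^ N

/-- Admissible families of weights. -/
structure IsWt {ι : Type} (W : ι → ℝ → ℝ) : Prop where
  one_le : ∀ j t, 1 ≤ W j t
  cont : ∀ j, Continuous (W j)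
  slow : ∀ j t s, W j (t + s) ≤ Real.exp |s| * W j t

/-- translation by `ih` -/
def tauh (h : ℝ) (X : ℂ → ℂ) (w : ℂ) : ℂ := X (w + h * Complex.I)
/-- difference quotient in `t` -/
def Dh (h : ℝ) (X : ℂ → ℂ) (w : ℂ) : ℂ := (X (w + h * Complex.I) - X w) / h

/-- (URAP) Closure properties of uniform rapid decay. `h j ∈ (0,1]` for every index.
Proof. (3) `|W^N c X| ≤ C|W^{N+N₀} X|`. (4) the strip and Lebesgue measure are invariant under `w ↦ w + ih`, and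
`W(t) ≤ e^{|h|}W(t+h)`, so `‖W^N τX‖ ≤ e^N‖W^N X‖`. -/
def S_URAP : Prop := ∀ (a : ℝ) (ι : Type) (W : ι → ℝ → ℝ), 0 < a → IsWt W →
  (∀ X Y, URap a W X → URap a W Y → URap a W (fun j w => X j w + Y j w)) ∧
  (∀ X Y, URap a W X → URap a W Y → URap a W (fun j w => X j w - Y j w)) ∧
  (∀ c X, UPol a W c → URap a W X → URap a W (fun j w => c j w * X j w)) ∧
  (∀ (h : ι → ℝ) X, (∀ j, 0 < h j ∧ h j ≤ 1) → URap a W X → URap a W (fun j => tauh (h j) (X j))) ∧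
  (∀ c, UPol a W c → UPol a W (fun j w => (starRingEnd ℂ) (c j w))) ∧
  (∀ (h : ι → ℝ) c, (∀ j, 0 < h j ∧ h j ≤ 1) → UPol a W c → UPol a W (fun j => tauh (h j) (c j))) ∧
  (∀ X, URap a W X → ∀ j, MemLp (X j) 2 (muS a))

/-- The weighted estimates for a family of potentials: property (WE) (from (WU) and the weights of module WT). -/
def WE (a : ℝ) {ι : Type} (Φ : ι → ℂ → ℝ) (W : ι → ℝ → ℝ) : Prop :=
  ∀ Xa Xb z y : ι → ℂ → ℂ, URap a W Xa → URap a W Xb →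
    (∀ j, InDom a (Φ j) (z j) (y j) ∧ Eqn a (Φ j) (y j) (Xa j) (Xb j)) → URap a W z ∧ URap a W y

/-- The weights exist (this is what module WT proves for the `Φ_J`). -/
def HasWeights (a : ℝ) {ι : Type} (Φ : ι → ℂ → ℝ) (W : ι → ℝ → ℝ) : Prop :=
  ∀ N : ℕ, ∃ (C : ℝ) (N' : ℕ), ∀ j, ∃ ψ : ℝ → ℝ, ContDiff ℝ ∞ ψ ∧ (∀ t, 0 ≤ ψ t) ∧
    (∃ B, ∀ t, |deriv ψ t| ≤ B) ∧ HypH a (Φ j) ψ ∧
    ∀ t, W j t ^ N ≤ C * Real.exp (ψ t) ∧ Real.exp (ψ t) ≤ C * W j t ^ N'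

/-- (WEA) Weights give (WE). Uses (WU).
Proof. `‖W^N z‖ ≤ C‖e^ψ z‖ ≤ C C_a(‖e^ψX_a‖+‖e^ψX_b‖) ≤ C'(‖W^{N'}X_a‖+‖W^{N'}X_b‖)`, constants independent of `j`. -/
def S_WEA : Prop := ∀ (a : ℝ) (ι : Type) (Φ : ι → ℂ → ℝ) (W : ι → ℝ → ℝ), 0 < a → IsWt W →
  (∀ j, ContDiffOn ℝ ∞ (Φ j) (strip a)) → (∀ j, ∀ w ∈ strip a, 0 ≤ lapC (Φ j) w) →
    HasWeights a Φ W → WE a Φ W

/-- `c_h = ∂Φ(· + ih) - ∂Φ` divided by `h` -/
def ch (Φ : ℂ → ℝ) (h : ℝ) (w : ℂ) : ℂ := Dh h (dz (fun w => (Φ w : ℂ))) w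

/-- (STEP) The difference quotient of a solution is a solution (9.3), for one `Φ` and one `h`.
Here `W ≥ 1` is continuous, `|c_h/h| ≤ C W^N` on the strip and `W^N z, W^N X_b, W^N y ∈ L²`.
Proof. (i) The equation: test `Eqn` with `τ_{-h}φ` (a test function) and use `D(τ_{-h}φ) = τ_{-h}((D + c)φ)`, `c(w) = ∂Φ(w+ih) - ∂Φ(w)`;
translation invariance of the integral over the strip gives `⟨τy,(D+c)φ⟩ = ⟨τX_a,φ⟩ + ⟨τX_b,(D+c)φ⟩`; subtract the equation,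
divide by `h`: `⟨D_hy,Dφ⟩ = ⟨D_hX_a + conj(c/h)τ(X_b-y), φ⟩ + ⟨D_hX_b, Dφ⟩`; then subtract `⟨(c/h)τz, Dφ⟩` from both sides.
(ii) The domain: for a test function `D(τφ) = τ(Dφ) - c τφ`.  Let `χ_R(t)` be smooth cut-offs, `χ_R = 1` for `|t| ≤ R`, `0` for
`|t| ≥ 2R`, `|χ_R'| ≤ C/R`. `(χ_Rz, χ_Ry - ∂χ_R z)` is in the domain; approximating functions `φ_n` may be multiplied by `χ_{2R}`, so have
`t`-support in `|t| ≤ 4R`, where `c` is bounded: hence `(τ(χ_Rz), τ(χ_Ry - ∂χ_Rz) - cτ(χ_Rz))` is in the domain; let `R → ∞`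
(dominated convergence, `|c||τz| ≤ C W^N|τz| ∈ L²`) and use closedness. -/
def S_STEP : Prop := ∀ (a h C : ℝ) (N : ℕ) (Φ : ℂ → ℝ) (W : ℝ → ℝ) (z y Xa Xb : ℂ → ℂ), 0 < a →
  0 < h → h ≤ 1 → ContDiffOn ℝ ∞ Φ (strip a) → Continuous W → (∀ t, 1 ≤ W t) →
  (∀ t s, W (t + s) ≤ Real.exp |s| * W t) →
  (∀ w ∈ strip a, ‖ch Φ h w‖ ≤ C * W w.im ^ N) →
  MemLp (fun w => ((W w.im) ^ N : ℝ) • z w) 2 (muS a) →
  MemLp (fun w => ((W w.im) ^ N : ℝ) • y w) 2 (muS a) →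
  MemLp (fun w => ((W w.im) ^ N : ℝ) • Xb w) 2 (muS a) →
  MemLp Xa 2 (muS a) → MemLp Xb 2 (muS a) → InDom a Φ z y → Eqn a Φ y Xa Xb →
    InDom a Φ (Dh h z) (fun w => Dh h y w - ch Φ h w * tauh h z w) ∧
    Eqn a Φ (fun w => Dh h y w - ch Φ h w * tauh h z w)
      (fun w => Dh h Xa w + (starRingEnd ℂ) (ch Φ h w) * tauh h (fun w => Xb w - y w) w)
      (fun w => Dh h Xb w - ch Φ h w * tauh h z w)

/-- (IND) Uniform finite difference estimates of every order.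
`h : ι → ℝ` is part of the family.  Hypotheses: (WE); `D_h^k(c_h/h)` has polynomial growth for every `k`; `D_h^k F` rapid for every `k`.
Conclusion: `D_h^k z`, `D_h^k y` rapid for every `k`, where `(z,y)` solves the equation with `X_a = 0`, `X_b = F`.
Proof. Let `z_0=z, y_0=y, A_0=0, B_0=F` and, by (STEP), `z_{i+1} = D_hz_i`, `y_{i+1} = D_hy_i - cτz_i`,
`A_{i+1} = D_hA_i + conj(c)τ(B_i - y_i)`, `B_{i+1} = D_hB_i - cτz_i` (`c := c_h/h = ch Φ h`).  Claim P(m): for all `i + k ≤ m` the families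
`D_h^kz_i, D_h^ky_i, D_h^kA_i, D_h^kB_i` are rapid.  P(0): (WE).  P(m)⇒P(m+1): by the Leibniz rule `D_h(fg) = (D_hf)τg + f D_hg`
products of `D_h^j c` (and conjugates, translates) with rapid families are rapid (URAP).  For `i+k = m+1`, induction on `i`:
`D_h^kB_0 = D_h^{m+1}F`; `D_h^kB_i = D_h^{k+1}B_{i-1} - D_h^k(cτz_{i-1})`, and the last term contains only `D_h^jz_{i-1}`, `j ≤ k`,
`(i-1)+k = m`; the same for `A_i`.  Then `(z_{m+1},y_{m+1})` solves the equation with `A_{m+1},B_{m+1}` rapid: (WE).  Finally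
`D_h^kz_i = z_{i+k}`, and `D_h^ky_i = D_h^{k-1}y_{i+1} + D_h^{k-1}(cτz_i)` by descending induction on `i`. -/
def S_IND : Prop := ∀ (a : ℝ) (ι : Type) (Φ : ι → ℂ → ℝ) (W : ι → ℝ → ℝ) (h : ι → ℝ)
  (z y F : ι → ℂ → ℂ), 0 < a → IsWt W → (∀ j, 0 < h j ∧ h j ≤ 1) →
  (∀ j, ContDiffOn ℝ ∞ (Φ j) (strip a)) → WE a Φ W →
  (∀ k : ℕ, UPol a W (fun j => (Dh (h j))^[k] (ch (Φ j) (h j)))) →
  (∀ k : ℕ, URap a W (fun j => (Dh (h j))^[k] (F j))) →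
  (∀ j, InDom a (Φ j) (z j) (y j) ∧ Eqn a (Φ j) (y j) (fun _ => 0) (F j)) →
  ∀ k : ℕ, URap a W (fun j => (Dh (h j))^[k] (z j)) ∧ URap a W (fun j => (Dh (h j))^[k] (y j))

/-- (MVT) Iterated difference quotients are bounded by derivatives.
Proof. `D_hf(w) = h⁻¹∫_0^h (∂_tf)(w+is)ds`, `D_h` commutes with `∂_t`; induction on `k`:
`‖D_h^kf(w)‖ ≤ sup_{0≤s≤kh}‖∂_t^kf(w+is)‖`, for `f` such that `t ↦ f(σ+it)` is `C^∞` for every `σ`. Here for a function of one real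
variable `t`. -/
def S_MVT : Prop := ∀ (f : ℝ → ℂ) (h : ℝ) (k : ℕ) (t B : ℝ), 0 < h → ContDiff ℝ ∞ f →
  (∀ s, 0 ≤ s → s ≤ k * h → ‖iteratedDeriv k f (t + s)‖ ≤ B) →
    ‖(fun g : ℝ → ℂ => fun t => (g (t + h) - g t) / h)^[k] f t‖ ≤ B

/-- (WEYL) If `G ∈ L²` and `⟨G, Dφ⟩ = 0` for all test functions then `G = e^{-Φ}g` almost everywhere with `g` holomorphic.
Proof. With `φ = e^{Φ}χ` (`χ` a test function; `e^Φχ` is one, extended by 0) `D(e^Φχ) = -e^Φ∂χ`, so `u := e^ΦG ∈ L¹_loc(strip)` satisfies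
`∫ u conj(∂χ) = 0`, i.e. `∫ u ∂̄χ̄ = 0` for all test functions: `u` is weakly holomorphic.  Mollify with radial mollifiers `ρ_ε`:
`u_ε = u*ρ_ε` is smooth with `∂̄u_ε = 0` on smaller strips/rectangles, hence holomorphic; for holomorphic functions the mean value
property gives `u_ε*ρ_δ = u_ε` and `u_ε*ρ_δ = u_δ*ρ_ε = u_δ`, so `u_ε = u_δ` locally; `u_ε → u` in `L¹_loc`. -/
def S_WEYL : Prop := ∀ (a : ℝ) (Φ : ℂ → ℝ) (G : ℂ → ℂ), 0 < a → ContDiffOn ℝ ∞ Φ (strip a) →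
  MemLp G 2 (muS a) → (∀ φ, IsTest a φ → ∫ w in strip a, G w * (starRingEnd ℂ) (Dop Φ φ w) = 0) →
    ∃ g : ℂ → ℂ, DifferentiableOn ℂ g (strip a) ∧
      G =ᵐ[muS a] fun w => (Real.exp (-Φ w) : ℂ) * g w

/-- (ORT) `y` (in the closure of the range) is orthogonal to `e^{-Φ}h`, `h` holomorphic.
Proof. For a test function `∫ Dφ conj(e^{-Φ}h) = ∫ e^{-Φ}... = ∫ -∂(φ e^{-Φ} conj h) = 0`: indeed
`Dφ·e^{-Φ}h̄ = -∂(φe^{-Φ}h̄)` because `∂h̄ = 0` and `∂(e^{-Φ}) = -(∂Φ)e^{-Φ}`.  Pass to the limit. -/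
def S_ORT : Prop := ∀ (a : ℝ) (Φ : ℂ → ℝ) (z y h : ℂ → ℂ), 0 < a → ContDiffOn ℝ ∞ Φ (strip a) →
  InDom a Φ z y → DifferentiableOn ℂ h (strip a) →
  MemLp (fun w => (Real.exp (-Φ w) : ℂ) * h w) 2 (muS a) →
    ∫ w in strip a, y w * (starRingEnd ℂ) ((Real.exp (-Φ w) : ℂ) * h w) = 0

/-- (FAT) From difference quotients to derivatives (Fatou), for a family.
`G_j` is smooth on the strip; if for every `k` the family `D_h^kG_j`, indexed by `(j,h)`, `0<h≤1`, is rapid then `∂_t^kG_j` is rapid.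
Proof. `D_h^kG(w) → ∂_t^kG(w)` as `h = 1/n → 0` pointwise on the strip; Fatou for `|W^N D_h^kG|²`. -/
def S_FAT : Prop := ∀ (a : ℝ) (ι : Type) (W : ι → ℝ → ℝ) (G : ι → ℂ → ℂ), 0 < a → IsWt W →
  (∀ j, ContDiffOn ℝ ∞ (G j) (strip a)) →
  (∀ k : ℕ, URap (ι := ι × Ioc (0:ℝ) 1) a (fun q => W q.1) (fun q => (Dh q.2.1)^[k] (G q.1))) →
    ∀ k : ℕ, URap a W (fun j => dT^[k] (G j))

/-- (ANM) Main theorem of module AN.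
Data: a family of potentials with weights, polynomial bounds of `∂_t^k∂Φ`, `k ≥ 1`, and a family `F` of functions with
`‖D_h^kF‖ ≤ C_{k,N}W^{-N}` pointwise, uniformly in `0<h≤1`; `∫W^{-2}dt ≤ C`.
Proof. (SOL) with `X_a=0, X_b=F` gives `(z,y)`; `G := F - y` satisfies the hypothesis of (WEYL), so `G = e^{-Φ}g` a.e. (we take
`G := e^{-Φ}g`); (ORT) gives the orthogonality.  (WEA), (IND) applied to the family indexed by `(j,h)` (`UPol` of `D_h^k c_h/h = D_h^{k+1}∂Φ`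
from (MVT)) and (FAT) give the bounds (`F` itself: `‖W^N D_h^kF‖_{L²}² ≤ C²·2a∫W^{-2}dt` with `N+1` in place of `N`). -/
def S_ANM : Prop := ∀ (a : ℝ) (ι : Type) (Φ : ι → ℂ → ℝ) (W : ι → ℝ → ℝ) (F : ι → ℂ → ℂ), 0 < a →
  IsWt W → (∀ j, ContDiffOn ℝ ∞ (Φ j) (strip a)) → (∀ j, ∀ w ∈ strip a, 0 ≤ lapC (Φ j) w) →
  HasWeights a Φ W → (∃ C : ℝ, ∀ j, Integrable (fun t => (W j t ^ 2)⁻¹) ∧ ∫ t, (W j t ^ 2)⁻¹ ≤ C) →
  (∀ k : ℕ, 1 ≤ k → ∃ (C : ℝ) (N : ℕ), ∀ j, ∀ w ∈ strip a,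
    ‖dT^[k] (dz (fun w => (Φ j w : ℂ))) w‖ ≤ C * W j w.im ^ N) →
  (∀ j, AEStronglyMeasurable (F j) (muS a)) →
  (∀ k N : ℕ, ∃ C : ℝ, ∀ j, ∀ h : ℝ, 0 < h → h ≤ 1 → ∀ w ∈ strip a,
    ‖(Dh h)^[k] (F j) w‖ * W j w.im ^ N ≤ C) →
  ∃ g : ι → ℂ → ℂ, (∀ j, DifferentiableOn ℂ (g j) (strip a)) ∧
    (∀ k : ℕ, URap a W (fun j => dT^[k] (fun w => (Real.exp (-(Φ j w)) : ℂ) * g j w))) ∧
    ∀ j h, DifferentiableOn ℂ h (strip a) →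
      MemLp (fun w => (Real.exp (-(Φ j w)) : ℂ) * h w) 2 (muS a) →
      ∫ w in strip a, (F j w - (Real.exp (-(Φ j w)) : ℂ) * g j w) *
        (starRingEnd ℂ) ((Real.exp (-(Φ j w)) : ℂ) * h w) = 0

end Pool.Agent.Helper24.AB
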